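import Mathlib
import Pool.Agent.TH858.GP.Two

/-!
Project BG (helper173): statements of the parts. Notation of the starting library `Pool/Agent/TH858/GP`:
`ψ c = ZMod.stdAddChar c`, `wt X g = ‖∑ y ∈ X, ψ (g * y)‖ ^ 2`, `cnt X z` the number of `(p, q) ∈ X × X` with
`p - q + z = 0`, `CB.nn c` the distance of `c / N` to the nearest integer.
-/

set_option autoImplicit false

namespace Pool.Agent.N173.BG

open Finset Pool.Agent.TH858 Pool.Agent.TH858.GP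

/-- The near-maximal spectrum: `|∑_{y ∈ X} e(g y / N)|² ≥ (1 - θ) |X|²`. -/
noncomputable def Sp {N : ℕ} [NeZero N] (X : Finset (ZMod N)) (θ : ℝ) : Finset (ZMod N) :=
  univ.filter fun g => (1 - θ) * (X.card : ℝ) ^ 2 ≤ wt X g

/-- The set `K X - K X` of the differences of two sums of `K` elements of `X`. -/
def KK {N : ℕ} (K : ℕ) (X : Finset (ZMod N)) : Set (ZMod N) :=
  {x | ∃ a b : Fin K → ZMod N, (∀ i, a i ∈ X) ∧ (∀ i, b i ∈ X) ∧ x = ∑ i, a i - ∑ i, b i}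

/-- The tuple `Λ` has no nontrivial relation with coefficients of absolute value less than `H`. -/
def Ind {N k : ℕ} (H : ℕ) (Λ : Fin k → ZMod N) : Prop :=
  ∀ m : Fin k → ℤ, (∀ i, |m i| < H) → ∑ i, (m i : ZMod N) * Λ i = 0 → m = 0

/-- SUM: sums of `n` elements of the spectrum. -/
def S_SUM : Prop := ∀ (N : ℕ) [NeZero N] (X : Finset (ZMod N)) (θ : ℝ) (n : ℕ) (f : Fin n → ZMod N),
  (∀ i, f i ∈ Sp X θ) → ∑ i, f i ∈ Sp X ((n : ℝ) ^ 2 * θ)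

/-- CARD: size of the spectrum. -/
def S_CARD : Prop := ∀ (N : ℕ) [NeZero N] (X : Finset (ZMod N)), X.Nonempty →
  ((Sp X (1 / 2)).card : ℝ) * X.card ≤ 2 * N

/-- MOM: moments of an exponential sum. -/
def S_MOM : Prop := ∀ (N : ℕ) [NeZero N] (Q T : Finset (ZMod N)) (j : ℕ),
  (∀ f : Fin j → ZMod N, (∀ i, f i ∈ Q) → ∑ i, f i ∈ T) →
  (N : ℝ) * (Q.card : ℝ) ^ (2 * j) ≤ T.card * ∑ x : ZMod N, wt Q x ^ j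

/-- PIG: a sumset of the spectrum which is almost invariant under the spectrum. -/
def S_PIG : Prop := ∀ (N : ℕ) [NeZero N] (X : Finset (ZMod N)) (M : ℕ) (θ : ℝ), X.Nonempty → 1 ≤ M →
  4 * (N : ℝ) ≤ Real.exp M * X.card → 0 < θ → 2 * (204 * (M : ℝ) ^ 2) ^ 2 * θ ≤ 1 →
  ∃ Q : Finset (ZMod N), Q.Nonempty ∧
    (∀ g ∈ Sp X θ, 100 * ((Q.card : ℝ) - cnt Q g) ≤ Q.card) ∧
    (∀ f : Fin (M + 1) → ZMod N, (∀ i, f i ∈ Q) → ∑ i, f i ∈ Sp X (1 / 2))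

/-- BIG: the exponential sum of such a set is large on a large set. -/
def S_BIG : Prop := ∀ (N : ℕ) [NeZero N] (X Q : Finset (ZMod N)) (M : ℕ), X.Nonempty → Q.Nonempty → 1 ≤ M →
  4 * (N : ℝ) ≤ Real.exp M * X.card →
  (∀ f : Fin (M + 1) → ZMod N, (∀ i, f i ∈ Q) → ∑ i, f i ∈ Sp X (1 / 2)) →
  (X.card : ℝ) ≤ 4 * ((univ.filter fun x : ZMod N => (Q.card : ℝ) ^ 2 / 4 ≤ wt Q x).card : ℝ)

/-- MUL: small multiples. -/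
def S_MUL : Prop := ∀ (N : ℕ) [NeZero N] (c : ZMod N) (J : ℕ), 1 ≤ J →
  (∀ j : ℕ, 1 ≤ j → j ≤ J → CB.nn ((j : ZMod N) * c) ≤ 1 / 100) → CB.nn c ≤ 1 / (100 * J)

/-- POL: the polar set of the near-maximal spectrum is large. -/
def S_POL : Prop := ∀ (N : ℕ) [NeZero N] (X : Finset (ZMod N)) (M J : ℕ), X.Nonempty → 1 ≤ M →
  4 * (N : ℝ) ≤ Real.exp M * X.card → 1 ≤ J →
  ∃ S : Finset (ZMod N), (X.card : ℝ) ≤ 4 * S.card ∧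
    ∀ x ∈ S, ∀ g ∈ Sp X (1 / (2 * (204 * (M : ℝ) ^ 2) ^ 2 * (J : ℝ) ^ 2)), CB.nn (g * x) ≤ 1 / (100 * J)

/-- BOG: Bogolyubov's argument for `K X - K X`. -/
def S_BOG : Prop := ∀ (N : ℕ) [NeZero N] (X : Finset (ZMod N)) (M K : ℕ) (θ : ℝ), X.Nonempty → 1 ≤ K →
  0 < θ → θ ≤ 1 → 4 * (N : ℝ) ≤ Real.exp M * X.card → (M : ℝ) ≤ θ * ((K : ℝ) - 1) →
  ∀ x : ZMod N, (∀ g ∈ Sp X θ, CB.nn (g * x) ≤ 1 / 4) → x ∈ KK K X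

/-- IND: independent characters which are small on a large set are few. -/
def S_IND : Prop := ∀ (N : ℕ) [NeZero N] (k H : ℕ) (Λ : Fin k → ZMod N) (S : Finset (ZMod N)), 1 ≤ H →
  Ind H Λ → (∀ x ∈ S, ∀ i, CB.nn (Λ i * x) ≤ 1 / (8 * H)) → (S.card : ℝ) * ((H : ℝ) / 2) ^ k ≤ N

/-- MAX: a maximal independent tuple. -/
def S_MAX : Prop := ∀ (N : ℕ) [NeZero N] (G : Finset (ZMod N)) (H : ℕ), 2 ≤ H →
  ∃ (k : ℕ) (Λ : Fin k → ZMod N), (∀ i, Λ i ∈ G) ∧ Ind H Λ ∧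
    ∀ g ∈ G, ∃ (n : ℤ) (m : Fin k → ℤ), 1 ≤ n ∧ n < H ∧ (∀ i, |m i| < H) ∧
      (n : ZMod N) * g = ∑ i, (m i : ZMod N) * Λ i

/-- GEN: a finitely generated group of rational vectors in dimension `m` is generated by `m` of them, modulo
integer vectors. -/
def S_GEN : Prop := ∀ (ι : Type) [Fintype ι] (m : ℕ) (c : ι → Fin m → ℚ),
  ∃ (a : Fin m → ι → ℤ) (z : Fin m → Fin m → ℤ), ∀ y : Fin m → ℤ,
    (∀ j, ∃ w : ℤ, ∑ l, ((∑ i, (a j i : ℚ) * c i l) + z j l) * (y l : ℚ) = w) →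
    ∀ i, ∃ w : ℤ, ∑ l, c i l * (y l : ℚ) = w

/-- REP: the conditions of many characters, expressed by `k + 1` characters. -/
def S_REP : Prop := ∀ (N : ℕ) [NeZero N] (k : ℕ) (Λ : Fin k → ZMod N) (ι : Type) [Fintype ι] (g : ι → ZMod N)
  (n : ι → ℤ) (m : ι → Fin k → ℤ), (∀ i, 1 ≤ n i) →
  (∀ i, (n i : ZMod N) * g i = ∑ l, (m i l : ZMod N) * Λ l) →
  ∃ (t : Fin (k + 1) → ZMod N) (w : Fin (k + 1) → Fin k → ℝ), (∀ j l, 0 ≤ w j l ∧ w j l ≤ 1) ∧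
    ∀ (x : ZMod N) (v : Fin k → ℝ), (∀ l, ∃ z : ℤ, v l = ((Λ l * x).val : ℝ) / N + z) →
      ((∀ j, ∃ z : ℤ, ((t j * x).val : ℝ) / N - ∑ l, w j l * v l = z) ↔
        ∀ i, ∃ z : ℤ, ((g i * x).val : ℝ) / N - (1 / (n i : ℝ)) * ∑ l, (m i l : ℝ) * v l = z)

/-- CVX: the intermediate set is cut out by `2 k + 1` characters and a convex set, and contains a Bohr set. -/
def S_CVX : Prop := ∀ (N : ℕ) [NeZero N] (k H J : ℕ) (G S : Finset (ZMod N)) (Λ : Fin k → ZMod N), S.Nonempty →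
  2 * k + 3 ≤ H → (k + 1) * H ≤ J →
  (∀ i, Λ i ∈ G) →
  (∀ g ∈ G, ∃ (n : ℤ) (m : Fin k → ℤ), 1 ≤ n ∧ n < H ∧ (∀ i, |m i| < H) ∧
      (n : ZMod N) * g = ∑ i, (m i : ZMod N) * Λ i) →
  (∀ x ∈ S, ∀ g ∈ G, CB.nn (g * x) ≤ 1 / (100 * J)) →
  ∃ Γ : Finset (ZMod N),
    (Γ.card : ℝ) ≤ 24 * (2 * k + 1) + 4 * (Real.log ((N : ℝ) / S.card) / Real.log H) ∧
    ∀ x : ZMod N, (∀ γ ∈ Γ, CB.nn (γ * x) ≤ 1 / (8 * H)) → ∀ g ∈ G, CB.nn (g * x) ≤ 1 / 4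

/-- THM: the main theorem. -/
def S_THM : Prop := ∀ (N : ℕ) [NeZero N] (X : Finset (ZMod N)) (M H K : ℕ), X.Nonempty →
  4 * (N : ℝ) ≤ Real.exp M * X.card → 2 * M + 3 ≤ H → 333000 * M ^ 7 * H ^ 2 ≤ K →
  ∃ Γ : Finset (ZMod N),
    (Γ.card : ℝ) ≤ 24 + 48 * (Real.log (4 * N / X.card) / Real.log ((H : ℝ) / 2)) +
      4 * (Real.log (4 * N / X.card) / Real.log H) ∧
    ∀ x : ZMod N, (∀ γ ∈ Γ, CB.nn (γ * x) ≤ 1 / (8 * H)) → x ∈ KK K X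

/-- DBL: constant radius at the cost of more frequencies. -/
def S_DBL : Prop := ∀ (N : ℕ) [NeZero N] (Γ : Finset (ZMod N)) (s : ℕ),
  ∃ Γ' : Finset (ZMod N), Γ'.card ≤ (s + 1) * Γ.card ∧
    ∀ x : ZMod N, (∀ γ ∈ Γ', CB.nn (γ * x) ≤ 1 / 8) → ∀ γ ∈ Γ, CB.nn (γ * x) ≤ 1 / (8 * 2 ^ s)

/-- EXC: from radius `1 / (4 B ^ 2)` to radius `1 / (4 B)`. -/
def S_EXC : Prop := ∀ (N : ℕ) [NeZero N] (Γ : Finset (ZMod N)) (B : ℕ), 1 ≤ B →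
  ∃ Γ' : Finset (ZMod N), Γ'.card ≤ 2 * Γ.card ∧
    ∀ x : ZMod N, (∀ γ ∈ Γ', CB.nn (γ * x) ≤ 1 / (4 * B)) → ∀ γ ∈ Γ, CB.nn (γ * x) ≤ 1 / (4 * (B : ℝ) ^ 2)

/-- SIZE: lower bound for the size of a Bohr set. -/
def S_SIZE : Prop := ∀ (N : ℕ) [NeZero N] (Γ : Finset (ZMod N)) (δ : ℝ), 0 < δ → δ ≤ 1 →
  (N : ℝ) * (δ / 2) ^ Γ.card ≤ ((univ.filter fun x : ZMod N => ∀ γ ∈ Γ, CB.nn (γ * x) ≤ δ).card : ℝ)

/-- CONST: constant radius and `O(log (1/α))` frequencies. -/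
def S_CONST : Prop := ∃ C : ℝ, 0 < C ∧ ∀ (N : ℕ) [NeZero N] (A : Finset (ZMod N)) (K : ℕ), A.Nonempty →
  (A.card : ℝ) / (N : ℝ) ≤ 1 / 2 → C * Real.log ((N : ℝ) / A.card) ^ 9 ≤ K →
  ∃ Γ : Finset (ZMod N), (Γ.card : ℝ) ≤ C * Real.log ((N : ℝ) / A.card) ∧
    ∀ x : ZMod N, (∀ γ ∈ Γ, CB.nn (γ * x) ≤ 1 / 8) → x ∈ KK K A

/-- The set `2A - 2A`. -/
def TT {N : ℕ} (A : Finset (ZMod N)) : Set (ZMod N) :=
  {x | ∃ a₁ ∈ A, ∃ a₂ ∈ A, ∃ a₃ ∈ A, ∃ a₄ ∈ A, x = a₁ + a₂ - a₃ - a₄}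

/-- CRIT: the conclusion of Q1 for `A` if `2A - 2A` contains `K X - K X`. -/
def S_CRIT : Prop := ∀ C : ℝ, 1 ≤ C → ∃ C' : ℝ, 0 < C' ∧ ∃ c' : ℝ, 0 < c' ∧
  ∀ (N : ℕ) [NeZero N] (A X : Finset (ZMod N)) (K : ℕ), A.Nonempty → (A.card : ℝ) / (N : ℝ) ≤ 1 / 2 →
    X.Nonempty →
    (N : ℝ) * Real.exp (-(C * Real.log ((N : ℝ) / A.card) * Real.log (2 + Real.log ((N : ℝ) / A.card)))) ≤
      X.card →
    (C * (2 + Real.log ((N : ℝ) / A.card))) ^ 40 ≤ K →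
    KK K X ⊆ TT A →
    ∃ (Γ : Finset (ZMod N)) (ε : ℝ), 0 < ε ∧
      (Γ.card : ℝ) ≤ C' * Real.log ((N : ℝ) / A.card) ∧
      c' / Real.log ((N : ℝ) / A.card) ≤ ε ∧
      ∀ x : ZMod N, (∀ γ ∈ Γ, CB.nn (γ * x) ≤ ε) → x ∈ TT A

/-- NEC: the converse. -/
def S_NEC : Prop := ∀ C₁ c₁ : ℝ, 0 < C₁ → 0 < c₁ → ∃ C : ℝ, 1 ≤ C ∧
  ∀ (N : ℕ) [NeZero N] (A : Finset (ZMod N)), A.Nonempty → (A.card : ℝ) / (N : ℝ) ≤ 1 / 2 →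
    (∃ (Γ : Finset (ZMod N)) (ε : ℝ), 0 < ε ∧ (Γ.card : ℝ) ≤ C₁ * Real.log ((N : ℝ) / A.card) ∧
      c₁ / Real.log ((N : ℝ) / A.card) ≤ ε ∧ ∀ x : ZMod N, (∀ γ ∈ Γ, CB.nn (γ * x) ≤ ε) → x ∈ TT A) →
    ∃ X : Finset (ZMod N), X.Nonempty ∧
      (N : ℝ) * Real.exp (-(C * Real.log ((N : ℝ) / A.card) * Real.log (2 + Real.log ((N : ℝ) / A.card)))) ≤
        X.card ∧
      KK ⌈(C * (2 + Real.log ((N : ℝ) / A.card))) ^ 40⌉₊ X ⊆ TT A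

/-- The number of representations `x = a₁ + a₂ - a₃ - a₄` with `aᵢ ∈ A`. -/
def rr {N : ℕ} (A : Finset (ZMod N)) (x : ZMod N) : ℕ :=
  ((A ×ˢ A ×ˢ A ×ˢ A).filter fun p => x = p.1 + p.2.1 - p.2.2.1 - p.2.2.2).card

/-- POP: the elements with a nearly maximal number of representations. -/
def S_POP : Prop := ∀ (N : ℕ) [NeZero N] (A : Finset (ZMod N)) (K : ℕ) (η : ℝ), A.Nonempty → 0 ≤ η →
  (2 * (K : ℝ)) ^ 2 * η < 1 →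
  KK K (univ.filter fun x : ZMod N => (1 - η) * (rr A 0 : ℝ) ≤ rr A x) ⊆ TT A

end Pool.Agent.N173.BG
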