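import Pool.Agent.N173.BG.Stm

/-!
Project MSB (helper173; the proof extends the part CONST of helper622): the trade-off between the number of
frequencies and the radius.
-/

set_option autoImplicit false

namespace Pool.Agent.N173.BG

open Finset Pool.Agent.TH858 Pool.Agent.TH858.GP

/-- TRD: a Bohr set of radius `1 / (8 R)` in `K A - K A`. -/
def S_TRD : Prop := ∃ C : ℝ, 0 < C ∧ ∀ (N : ℕ) [NeZero N] (A : Finset (ZMod N)) (K : ℕ) (R : ℝ), A.Nonempty →
  (A.card : ℝ) / (N : ℝ) ≤ 1 / 2 → 1 ≤ R →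
  C * Real.log ((N : ℝ) / A.card) ^ 7 * (Real.log ((N : ℝ) / A.card) + R) ^ 2 ≤ K →
  ∃ Γ : Finset (ZMod N),
    (Γ.card : ℝ) ≤ C * (1 + Real.log ((N : ℝ) / A.card) *
      (Real.log (2 + Real.log ((N : ℝ) / A.card) / R) / Real.log (2 + Real.log ((N : ℝ) / A.card) + R))) ∧
    ∀ x : ZMod N, (∀ γ ∈ Γ, CB.nn (γ * x) ≤ 1 / (8 * R)) → x ∈ KK K A

/-- Doubling, starting from a radius `ρ ≤ 1 / 8` (after helper665, part DBL). -/
lemma dbl {N : ℕ} [NeZero N] (c : ZMod N) (s : ℕ) (ρ : ℝ) (hρ : ρ ≤ 1 / 8)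
    (h : ∀ i < s + 1, CB.nn (((2 ^ i : ℕ) : ZMod N) * c) ≤ ρ) : CB.nn c ≤ ρ / 2 ^ s := by
  obtain ⟨θ, hθ⟩ : ∃ θ : ℝ, θ = (c.val : ℝ) / N + ((-round ((c.val : ℝ) / N) : ℤ) : ℝ) := ⟨_, rfl⟩
  have hmul : ∀ i : ℕ, CB.nint ((2 : ℝ) ^ i * θ) = CB.nn (((2 ^ i : ℕ) : ZMod N) * c) := by
    intro i
    have := CB.nint_mul c ((2 ^ i : ℕ) : ℤ) (-round ((c.val : ℝ) / N))
    rw [hθ]
    push_cast at this ⊢
    exact this
  have hθabs : |θ| = CB.nn c := by
    rw [hθ]
    unfold CB.nn CB.nint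
    congr 1
    push_cast
    ring
  have key : ∀ i < s + 1, |(2 : ℝ) ^ i * θ| ≤ ρ := by
    intro i
    induction i with
    | zero =>
      intro _
      have h0 := h 0 (by omega)
      have h1 : CB.nn (((2 ^ 0 : ℕ) : ZMod N) * c) = CB.nn c := by simp
      rw [h1] at h0
      rw [pow_zero, one_mul, hθabs]
      exact h0
    | succ i ih =>
      intro hi
      have h1 := ih (by omega)
      have h2 : |(2 : ℝ) ^ (i + 1) * θ| ≤ 1 / 4 := by
        have : (2 : ℝ) ^ (i + 1) * θ = 2 * ((2 : ℝ) ^ i * θ) := by ring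
        rw [this, abs_mul, abs_of_pos two_pos]
        linarith
      have h3 := h (i + 1) hi
      rw [← hmul, CB.nint_of_small (by linarith)] at h3
      exact h3
  have h3 := key s (by omega)
  rw [abs_mul, abs_of_pos (by positivity), hθabs] at h3
  rw [le_div_iff₀ (by positivity)]
  linarith

theorem dbl_set (N : ℕ) [NeZero N] (Γ : Finset (ZMod N)) (s : ℕ) (ρ : ℝ) (hρ : ρ ≤ 1 / 8) :
    ∃ Γ' : Finset (ZMod N), Γ'.card ≤ (s + 1) * Γ.card ∧
      ∀ x : ZMod N, (∀ γ ∈ Γ', CB.nn (γ * x) ≤ ρ) → ∀ γ ∈ Γ, CB.nn (γ * x) ≤ ρ / 2 ^ s := by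
  classical
  refine ⟨(Finset.range (s + 1)).biUnion (fun i => Γ.image fun g => ((2 ^ i : ℕ) : ZMod N) * g),
    ?_, ?_⟩
  · refine card_biUnion_le.trans ?_
    calc ∑ i ∈ Finset.range (s + 1), (Γ.image fun g => ((2 ^ i : ℕ) : ZMod N) * g).card
        ≤ ∑ _i ∈ Finset.range (s + 1), Γ.card := sum_le_sum fun i _ => card_image_le
      _ = (s + 1) * Γ.card := by simp
  · intro x hx γ hγ
    refine dbl (γ * x) s ρ hρ fun i hi => ?_
    have := hx (((2 ^ i : ℕ) : ZMod N) * γ) (mem_biUnion.2 ⟨i, mem_range.2 hi,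
      mem_image_of_mem (fun g => ((2 ^ i : ℕ) : ZMod N) * g) hγ⟩)
    rwa [mul_assoc] at this

theorem t_TRD (h1 : S_THM) : S_TRD := by
  refine ⟨10 ^ 14, by norm_num, ?_⟩
  intro N hN0 A K R hA hα hR hK
  have hNpos : (0 : ℝ) < N := by exact_mod_cast Nat.pos_of_ne_zero hN0.out
  have hApos : (0 : ℝ) < A.card := by exact_mod_cast hA.card_pos
  set l : ℝ := Real.log ((N : ℝ) / A.card) with hl
  have hNA : 2 ≤ (N : ℝ) / A.card := by
    rw [le_div_iff₀ hApos]
    rw [div_le_iff₀ hNpos] at hα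
    linarith
  have hlog2 := Real.log_two_gt_d9
  have hlog2' := Real.log_two_lt_d9
  have hl2 : Real.log 2 ≤ l := Real.log_le_log (by norm_num) hNA
  have hl0 : 0 < l := by linarith
  set D : ℝ := Real.log (4 * N / A.card) with hD
  have hDl : D = l + 2 * Real.log 2 := by
    rw [hD, hl, mul_div_assoc, Real.log_mul (by norm_num) (by positivity),
      show (4 : ℝ) = 2 ^ 2 by norm_num, Real.log_pow]
    push_cast
    ring
  set M : ℕ := ⌈D⌉₊ with hM
  have hDM : D ≤ M := Nat.le_ceil D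
  have hD0 : 0 ≤ D := by rw [hDl]; linarith
  have hMD : (M : ℝ) < D + 1 := Nat.ceil_lt_add_one hD0
  have hM2 : 2 ≤ M := by
    have : (1 : ℝ) < M := by
      refine lt_of_lt_of_le ?_ hDM
      rw [hDl]
      linarith
    have : 1 < M := by exact_mod_cast this
    omega
  obtain ⟨H, hHdef⟩ : ∃ H : ℕ, H = max (2 * M + 3) ⌈R⌉₊ := ⟨_, rfl⟩
  have hHM : 2 * M + 3 ≤ H := by rw [hHdef]; exact le_max_left _ _
  have hHMr : 2 * (M : ℝ) + 3 ≤ H := by exact_mod_cast hHM
  have hRH : R ≤ H := by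
    refine (Nat.le_ceil R).trans ?_
    rw [hHdef]
    exact_mod_cast le_max_right _ _
  have hR0 : 0 < R := by linarith
  have hMl : (M : ℝ) ≤ 4.5 * l := by
    rw [hDl] at hMD
    nlinarith
  have hHl : (H : ℝ) ≤ 14 * (l + R) := by
    have h3 : ((2 * M + 3 : ℕ) : ℝ) ≤ 14 * (l + R) := by
      push_cast
      rw [hDl] at hMD
      nlinarith
    have h4 : ((⌈R⌉₊ : ℕ) : ℝ) ≤ 14 * (l + R) := by
      have h5 : (⌈R⌉₊ : ℝ) < R + 1 := Nat.ceil_lt_add_one hR0.le
      linarith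
    rw [hHdef, Nat.cast_max]
    exact max_le h3 h4
  have h4N : 4 * (N : ℝ) ≤ Real.exp M * A.card := by
    rw [← div_le_iff₀ hApos, ← Real.log_le_iff_le_exp (by positivity)]
    exact hDM
  have hKn : 333000 * M ^ 7 * H ^ 2 ≤ K := by
    have h3 : (333000 * (M : ℝ) ^ 7 * (H : ℝ) ^ 2) ≤ K := by
      refine le_trans ?_ hK
      have h4 : (M : ℝ) ^ 7 ≤ (4.5 * l) ^ 7 := pow_le_pow_left₀ (by positivity) hMl 7
      have h5 : (H : ℝ) ^ 2 ≤ (14 * (l + R)) ^ 2 := pow_le_pow_left₀ (by positivity) hHl 2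
      calc 333000 * (M : ℝ) ^ 7 * (H : ℝ) ^ 2 ≤ 333000 * (4.5 * l) ^ 7 * (14 * (l + R)) ^ 2 := by
            gcongr
        _ = (333000 * 4.5 ^ 7 * 14 ^ 2) * (l ^ 7 * (l + R) ^ 2) := by ring
        _ ≤ 10 ^ 14 * (l ^ 7 * (l + R) ^ 2) := by
            refine mul_le_mul_of_nonneg_right ?_ (by positivity)
            norm_num
        _ = 10 ^ 14 * l ^ 7 * (l + R) ^ 2 := by ring
    exact_mod_cast h3
  obtain ⟨Γ, hΓ, hΓx⟩ := h1 N A M H K hA h4N hHM hKn
  have hH7 : 7 ≤ H := by omega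
  have hH7r : (7 : ℝ) ≤ H := by exact_mod_cast hH7
  have hH0 : (0 : ℝ) < H := by linarith
  have hHR1 : 1 ≤ (H : ℝ) / R := by
    rw [le_div_iff₀ hR0]
    linarith
  set s : ℕ := Nat.log 2 ⌊(H : ℝ) / R⌋₊ + 1 with hs
  have hfl1 : 1 ≤ ⌊(H : ℝ) / R⌋₊ := by
    rw [Nat.one_le_floor_iff]
    exact hHR1
  have hρ8 : 1 / (8 * R) ≤ 1 / 8 := by
    refine one_div_le_one_div_of_le (by norm_num) ?_
    linarith
  obtain ⟨Γ', hΓ', hΓx'⟩ := dbl_set N Γ s (1 / (8 * R)) hρ8
  refine ⟨Γ', ?_, ?_⟩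
  · -- the size
    have hLH : Real.log 4 ≤ Real.log H := Real.log_le_log (by norm_num) (by linarith)
    have hL4 : Real.log 4 = 2 * Real.log 2 := by
      rw [show (4 : ℝ) = 2 ^ 2 by norm_num, Real.log_pow]
      push_cast
      ring
    have hLpos : 0 < Real.log H := by linarith
    have h3 : Real.log H ≤ 3 * Real.log ((H : ℝ) / 2) := by
      have h4 : Real.log (((H : ℝ) / 2) ^ 3) = 3 * Real.log ((H : ℝ) / 2) := by
        rw [Real.log_pow]
        push_cast
        ring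
      rw [← h4]
      refine Real.log_le_log hH0 ?_
      nlinarith [mul_self_nonneg ((H : ℝ) - 7), mul_pos hH0 hH0]
    have hL2pos : 0 < Real.log ((H : ℝ) / 2) := by linarith
    have h4 : D / Real.log ((H : ℝ) / 2) ≤ 3 * (D / Real.log H) := by
      rw [mul_div_assoc', div_le_div_iff₀ hL2pos hLpos]
      nlinarith
    have h5 : (Γ.card : ℝ) ≤ 24 + 148 * (D / Real.log H) := by
      refine hΓ.trans ?_
      linarith
    -- the quantities of the statement
    set E : ℝ := Real.log (2 + l / R) with hE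
    set F : ℝ := Real.log (2 + l + R) with hF
    have hlR : 0 < l / R := div_pos hl0 hR0
    have hE0 : Real.log 2 ≤ E := Real.log_le_log (by norm_num) (by linarith)
    have hEpos : 0 < E := by linarith
    have hF0 : Real.log 2 ≤ F := Real.log_le_log (by norm_num) (by linarith)
    have hFpos : 0 < F := by linarith
    have hFH : F ≤ 2 * Real.log H := by
      have h6 : 2 * Real.log H = Real.log ((H : ℝ) ^ 2) := by
        rw [Real.log_pow]
        push_cast
        ring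
      rw [h6]
      refine Real.log_le_log (by linarith) ?_
      rw [hDl] at hDM
      nlinarith
    have hDF : D / Real.log H ≤ 6 * (l / F) := by
      rw [mul_div_assoc', div_le_div_iff₀ hLpos hFpos]
      have h6 : D ≤ 3 * l := by rw [hDl]; linarith
      calc D * F ≤ (3 * l) * (2 * Real.log H) := mul_le_mul h6 hFH hFpos.le (by linarith)
        _ = 6 * l * Real.log H := by ring
    have h6 : ((s : ℝ) + 1) ≤ 11 * E := by
      have h7 : ((2 : ℝ)) ^ (Nat.log 2 ⌊(H : ℝ) / R⌋₊) ≤ (H : ℝ) / R := by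
        have h8 : ((2 ^ (Nat.log 2 ⌊(H : ℝ) / R⌋₊) : ℕ) : ℝ) ≤ (⌊(H : ℝ) / R⌋₊ : ℝ) := by
          exact_mod_cast Nat.pow_log_le_self 2 (by omega)
        push_cast at h8
        exact h8.trans (Nat.floor_le (by linarith))
      have h8 : (Nat.log 2 ⌊(H : ℝ) / R⌋₊ : ℝ) * Real.log 2 ≤ Real.log 16 + E := by
        rw [← Real.log_pow, hE, ← Real.log_mul (by norm_num) (by linarith)]
        refine Real.log_le_log (by positivity) (h7.trans ?_)
        rw [div_le_iff₀ hR0]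
        have h9 : l / R * R = l := div_mul_cancel₀ _ hR0.ne'
        nlinarith
      have h16 : Real.log 16 = 4 * Real.log 2 := by
        rw [show (16 : ℝ) = 2 ^ 4 by norm_num, Real.log_pow]
        push_cast
        ring
      have h9 : (s : ℝ) = Nat.log 2 ⌊(H : ℝ) / R⌋₊ + 1 := by rw [hs]; push_cast; ring
      rw [h9]
      rw [h16] at h8
      obtain ⟨n, hn⟩ : ∃ n : ℝ, n = (Nat.log 2 ⌊(H : ℝ) / R⌋₊ : ℝ) := ⟨_, rfl⟩
      rw [← hn] at h8 ⊢
      rcases le_total n 4 with h | h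
      · linarith
      · have h10 : (n - 4) * (69 / 100) ≤ (n - 4) * Real.log 2 :=
          mul_le_mul_of_nonneg_left (by linarith) (by linarith)
        linarith
    have h7 : (Γ'.card : ℝ) ≤ (s + 1) * Γ.card := by exact_mod_cast hΓ'
    have h8 : E ≤ 4 * (1 + l * (E / F)) := by
      rcases le_total l R with h | h
      · have h9 : l / R ≤ 1 := by
          rw [div_le_one hR0]
          exact h
        have h10 : E ≤ 2 + l / R - 1 := Real.log_le_sub_one_of_pos (by linarith)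
        have h11 : 0 ≤ l * (E / F) := by positivity
        linarith
      · have h9 : F ≤ 2 + l + R - 1 := Real.log_le_sub_one_of_pos (by linarith)
        have h10 : F ≤ 4 * l := by linarith
        have h11 : E ≤ 4 * (l * (E / F)) := by
          rw [mul_div_assoc', mul_div_assoc', le_div_iff₀ hFpos]
          nlinarith
        linarith
    have h9 : 0 ≤ l * (E / F) := by positivity
    calc (Γ'.card : ℝ) ≤ (s + 1) * Γ.card := h7
      _ ≤ (11 * E) * (24 + 148 * (6 * (l / F))) := by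
          refine mul_le_mul h6 (h5.trans ?_) (by positivity) (by positivity)
          linarith
      _ = 264 * E + 9768 * (l * (E / F)) := by
          field_simp
          ring
      _ ≤ 10 ^ 14 * (1 + l * (E / F)) := by linarith
  · intro x hx
    refine hΓx x fun γ hγ => (hΓx' x hx γ hγ).trans ?_
    have h3 : (H : ℝ) / R < 2 ^ s := by
      have h4 : ⌊(H : ℝ) / R⌋₊ + 1 ≤ 2 ^ s := Nat.lt_pow_succ_log_self (b := 2) (by norm_num) _
      have h5 : ((⌊(H : ℝ) / R⌋₊ : ℕ) : ℝ) + 1 ≤ 2 ^ s := by exact_mod_cast h4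
      exact (Nat.lt_floor_add_one _).trans_le h5
    rw [div_lt_iff₀ hR0] at h3
    rw [div_div]
    refine one_div_le_one_div_of_le (by positivity) ?_
    linarith

end Pool.Agent.N173.BG
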